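import Pool.Agent.Helper98.LogPoly.Final

/-!
# Small-disorder free energy of the planar polymer with log-critical correlations (MP_b30792_pr, Q1)

The definitions (steps and positions of the walk, partition function `WW`, Bessel function) are in
`Pool/Agent/Helper98/LogPoly/Defs.lean`.

Idea of the proof. Put `v'' = -2 s^a v`, `v(0) = 1`, `v'(0) = 0`; `v` is a normalised Bessel
function and its first zero `s*` satisfies `2 s* = (c_a)^(2/(a+2))`.
Lower bound for `p`: replica coupling bounds `- E log W_T` by the logarithm of a second moment with a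
slightly larger disorder, and a supersolution built from `v(τ log |x|)` shows that this second moment
stays bounded up to `N = exp (2 s/τ)`, `s < s*`.
Upper bound for `p`: Kahane's inequality reduces to a finite range covariance; a change of measure by a
truncated chaos of order `≍ log log N` (whose mass is bounded below by a subsolution built from `v`),
together with a coarse graining of `E W^(1/2)`, gives exponential decay at rate `1/N` for
`log N` slightly above `2 s*/τ`.
The almost sure limit defining `p` is obtained from superadditivity and concentration.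
-/

set_option autoImplicit false

namespace Pool.Agent.Results.MP_b30792_pr.SmallDisorder

open MeasureTheory ProbabilityTheory Filter Topology
open Pool.Agent.Helper98.LogPoly

/-- **Small-disorder asymptotics of the free energy.** Let `a > -1`, and let `ω (n, x)` be a centred
Gaussian field with covariance `1_{n=m} h (y - z)`, where `h ≥ 0`, `h 0 = 1` and
`h x ~ (log |x|)^a / |x|^2`. Then the free energy `p β = lim (1/N) log W_N` exists almost surely for all
`β > 0`, the normalised Bessel function of index `-1/(a+2)` has a smallest positive zero `z`, and with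
`c = 2^((a-1)/2) (a+2) z` one has `- p β = exp (- (c/β)^(2/(a+2)) (1 + ε β))`, `ε β → 0`
as `β ↓ 0`. -/
theorem result {Ω : Type*} [MeasurableSpace Ω] (P : Measure Ω) [IsProbabilityMeasure P]
    (a : ℝ) (ha : -1 < a) (h : ℤ × ℤ → ℝ) (h_nonneg : ∀ x, 0 ≤ h x) (h_zero : h 0 = 1)
    (h_asymp : Tendsto (fun x : ℤ × ℤ => h x * ((x.1 : ℝ) ^ 2 + (x.2 : ℝ) ^ 2) /
      Real.log (Real.sqrt ((x.1 : ℝ) ^ 2 + (x.2 : ℝ) ^ 2)) ^ a) cofinite (𝓝 1))
    (ω : ℕ → ℤ × ℤ → Ω → ℝ)
    (ω_gauss : IsGaussianProcess (fun i : ℕ × (ℤ × ℤ) => ω i.1 i.2) P)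
    (ω_mean : ∀ n x, ∫ w, ω n x w ∂P = 0)
    (ω_cov : ∀ n m y z, ∫ w, ω n y w * ω m z w ∂P = if n = m then h (y - z) else 0) :
    ∃ (z : ℝ) (p : ℝ → ℝ),
      IsLeast {z : ℝ | 0 < z ∧ besselJt (-1 / (a + 2)) z = 0} z ∧
      (∀ β : ℝ, 0 < β → ∀ᵐ w ∂P,
        Tendsto (fun N : ℕ => Real.log (WW β N (fun n x => ω n x w)) / N) atTop (𝓝 (p β))) ∧
      ∃ ε : ℝ → ℝ, Tendsto ε (𝓝[>] 0) (𝓝 0) ∧
        ∀ᶠ β in 𝓝[>] (0 : ℝ), -p β = Real.exp (-(((2 : ℝ) ^ ((a - 1) / 2) * (a + 2) * z / β) ^
          (2 / (a + 2)) * (1 + ε β))) := by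
  classical
  have hp1 : 1 < a + 2 := by linarith
  have hp0 : 0 < a + 2 := by linarith
  have hω : IsEnv P ω h := ⟨ω_gauss, ω_mean, fun n m x y => ω_cov n m x y⟩
  have hh : HAsym a h := by
    refine h_asymp.congr fun x => ?_
    rw [Real.log_sqrt (by positivity)]
    unfold nsq
    congr 2
    ring
  choose! p hp using fun (β : ℝ) (_ : 0 < β) => exists_free_energy hω h_zero β
  obtain ⟨hneg, hlim⟩ := Mn.main_limit ha hω h_zero h_nonneg hh hp
  have hT : 0 < tst (a + 2) := (isLeast_tst hp1).1.1
  set K : ℝ := 2 * tst (a + 2) ^ (1 / (a + 2)) with hK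
  have hK0 : 0 < K := by positivity
  refine ⟨Real.sqrt (8 * tst (a + 2)) / (a + 2), p, isLeast_bessel hp1, hp,
    fun β => -(β ^ (2 / (a + 2)) * Real.log (-p β)) / K - 1, ?_, ?_⟩
  · have h1 := (hlim.neg.div_const K).sub_const 1
    rw [neg_neg, div_self hK0.ne', sub_self] at h1
    exact h1
  · filter_upwards [hneg, self_mem_nhdsWithin] with β hβ hβ0
    have hβpos : 0 < β := hβ0
    have hb : 0 < β ^ (2 / (a + 2)) := Real.rpow_pos_of_pos hβpos _
    rw [Real.div_rpow (by positivity) hβpos.le, Mn.const_eq ha, ← hK]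
    have e1 : -(K / β ^ (2 / (a + 2)) *
        (1 + (-(β ^ (2 / (a + 2)) * Real.log (-p β)) / K - 1))) = Real.log (-p β) := by
      field_simp
      ring
    rw [e1, Real.exp_log (by linarith)]

end Pool.Agent.Results.MP_b30792_pr.SmallDisorder
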